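import Pool.Agent.H46.MIC.Thm
import Pool.Agent.H38.TIE.Mct
import Pool.Agent.H48.GEN.ShS

/-!
# From tuples of samples to a polynomial for each line

If the value at the last sample of a tuple of `D + 2` samples of one line is given by the
interpolation at the others, off a small probability, then there is a polynomial for each line.
-/

set_option autoImplicit false

namespace Pool.LSH

open Finset Polynomial
open Pool.Agent.H49.Ent Pool.Agent.H32.Dense Pool.STK Pool.BFL Pool.MIC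
open Pool.K2S (cpn)

/-- **A polynomial for each line.** -/
theorem poly_tup {Ω Λ : Type} [Fintype Ω] {q : Ω → ℝ} (hq : IsLaw q) (L : Ω → Λ)
    (th val : Ω → ℝ) (D : ℕ) (δ r ε : ℝ) (hr : 0 < r)
    (h : Pb (cpn q L (D + 1)) (fun v : Fin (D + 2) → Ω =>
      ¬ ((∀ i i' : Fin (D + 1), i ≠ i' → r ≤ |th (Fin.init v i) - th (Fin.init v i')|) ∧
        |val (v (Fin.last (D + 1))) - (Lagrange.interpolate univ (fun i => th (Fin.init v i))
          (fun i => val (Fin.init v i))).eval (th (v (Fin.last (D + 1))))| ≤ δ)) ≤ ε) :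
    ∃ g : Λ → ℝ[X], (∀ l, (g l).degree < (D + 1 : ℕ)) ∧
      Pb q (fun ω => ¬ |val ω - (g (L ω)).eval (th ω)| ≤ δ) ≤ ε := by
  classical
  obtain ⟨Good, hGood⟩ : ∃ Good : (Fin (D + 1 + 1) → Ω) → Ω → Prop, Good = fun v ω =>
    (∀ i i' : Fin (D + 1), i ≠ i' → r ≤ |th (Fin.init v i) - th (Fin.init v i')|) ∧
        |val ω - (Lagrange.interpolate univ (fun i => th (Fin.init v i))
          (fun i => val (Fin.init v i))).eval (th ω)| ≤ δ := ⟨_, rfl⟩
  obtain ⟨x, hx⟩ := bst_thm Ω Λ q L (D + 1) (Fin.last (D + 1)) (fun _ => True) Good hq (by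
    intro w w' hw ω
    have h1 : (Fin.init w : Fin (D + 1) → Ω) = Fin.init w' := by
      funext i
      exact hw _ (Fin.castSucc_lt_last i).ne
    rw [hGood]
    simp only
    rw [h1])
  have h1 : 1 - ε ≤ Pb (cpn q L (D + 1)) (fun w => (∀ _ : Fin (D + 1 + 1), True) ∧
      Good w (w (Fin.last (D + 1)))) := by
    have h2 := Pb_not (Pool.CLU.cpn_law hq L (D + 1)).sum_one
      (fun w : Fin (D + 1 + 1) → Ω => (∀ _ : Fin (D + 1 + 1), True) ∧
        Good w (w (Fin.last (D + 1))))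
    have h3 : Pb (cpn q L (D + 1)) (fun w => ¬ ((∀ _ : Fin (D + 1 + 1), True) ∧
      Good w (w (Fin.last (D + 1))))) ≤ ε := by
      refine (Pb_le_of_imp (Pool.CLU.cpn_law hq L (D + 1)).nonneg fun w _ hw => ?_).trans h
      intro hc
      refine hw ⟨fun _ => trivial, ?_⟩
      rw [hGood]
      exact hc
    linarith only [h2, h3]
  have h4 : Pb q (fun ω => ¬ Good (x (L ω)) ω) ≤ ε := by
    have h5 := Pb_not hq.sum_one (fun ω => Good (x (L ω)) ω)
    have h6 : Pb q (fun ω => True ∧ Good (x (L ω)) ω) ≤ Pb q (fun ω => Good (x (L ω)) ω) :=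
      Pb_le_of_imp hq.nonneg fun ω _ hω => hω.2
    linarith only [hx, h1, h5, h6]
  refine ⟨fun l => if ∀ i i' : Fin (D + 1), i ≠ i' →
      r ≤ |th (Fin.init (x l) i) - th (Fin.init (x l) i')| then
    Lagrange.interpolate univ (fun i => th (Fin.init (x l) i))
      (fun i => val (Fin.init (x l) i)) else 0, fun l => ?_, ?_⟩
  · simp only
    split_ifs with hc
    · have hinj : Set.InjOn (fun i : Fin (D + 1) => th (Fin.init (x l) i))
          (univ : Finset (Fin (D + 1))) := by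
        intro i _ i' _ hii
        by_contra hne
        have h5 := hc i i' hne
        simp only at hii
        rw [hii, sub_self, abs_zero] at h5
        linarith only [hr, h5]
      have h5 := Lagrange.degree_interpolate_lt (r := fun i => val (Fin.init (x l) i)) hinj
      rwa [Finset.card_univ, Fintype.card_fin] at h5
    · rw [degree_zero]
      exact WithBot.bot_lt_coe _
  · refine (Pb_le_of_imp hq.nonneg fun ω _ hω => ?_).trans h4
    intro hc
    refine hω ?_
    rw [hGood] at hc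
    simp only
    rw [if_pos hc.1]
    exact hc.2

/-- **A polynomial for each line, on an event.** -/
theorem poly_tup_ev {Ω Λ : Type} [Fintype Ω] {p : Ω → ℝ} (hp : IsLaw p) (G : Ω → Prop)
    (hG : 0 < Pb p G) (L : Ω → Λ) (th val : Ω → ℝ) (D : ℕ) (δ r ε : ℝ) (hr : 0 < r)
    (h : Pb (cpn (cond p G True) L (D + 1)) (fun v : Fin (D + 2) → Ω =>
      ¬ ((∀ i i' : Fin (D + 1), i ≠ i' → r ≤ |th (Fin.init v i) - th (Fin.init v i')|) ∧
        |val (v (Fin.last (D + 1))) - (Lagrange.interpolate univ (fun i => th (Fin.init v i))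
          (fun i => val (Fin.init v i))).eval (th (v (Fin.last (D + 1))))| ≤ δ)) ≤ ε) :
    ∃ g : Λ → ℝ[X], (∀ l, (g l).degree < (D + 1 : ℕ)) ∧
      Pb p (fun ω => G ω ∧ δ < |val ω - (g (L ω)).eval (th ω)|) ≤ ε := by
  have hq : IsLaw (cond p G True) := isLaw_ev hp G hG
  obtain ⟨g, hg, h1⟩ := poly_tup hq L th val D δ r ε hr h
  refine ⟨g, hg, ?_⟩
  have h2 := Pb_cond_ge (p := p) G (fun ω => ¬ |val ω - (g (L ω)).eval (th ω)| ≤ δ) hG
  have h3 : Pb p (fun ω => G ω ∧ δ < |val ω - (g (L ω)).eval (th ω)|) =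
      Pb p (fun ω => G ω ∧ ¬ |val ω - (g (L ω)).eval (th ω)| ≤ δ) := by
    simp only [not_le]
  have h4 : Pb p G ≤ 1 := by
    have h6 := Pb_not hp.sum_one G
    have h7 := Pb_nonneg hp.nonneg (fun ω => ¬ G ω)
    linarith only [h6, h7]
  have h5 := Pb_nonneg hq.nonneg (fun ω => ¬ |val ω - (g (L ω)).eval (th ω)| ≤ δ)
  rw [h3, ← h2]
  nlinarith only [h1, h4, h5]

/-- The probability of a set. -/
theorem Pr_eq_Pb {Ω : Type} [Fintype Ω] (p : Ω → ℝ) (E : Set Ω) :
    Pool.KAF.Pr p E = Pb p (fun ω => ω ∈ E) := law_True p _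

/-- **The conclusion of the level by level theorem, as a polynomial for each line.** -/
theorem poly_sd {k n m K : ℕ} (d : SDat k n m K) (G : Set d.Om) (hp : IsLaw d.P)
    (hG : 0 < Pool.KAF.Pr d.P G) (D k₀ : ℕ) (δ ε : ℝ)
    (h : Pool.KAF.Pr (Pool.SLO.tup (cond d.P (fun ω => ω ∈ G) True) d.L (D + 1))
      (d.Bad D k₀ δ) ≤ ε) :
    ∃ g : d.Lam → ℝ[X], (∀ l, (g l).degree < (D + 1 : ℕ)) ∧
      Pb d.P (fun ω => ω ∈ G ∧
        δ < |d.val (d.L ω) (d.T ω) - (g (d.L ω)).eval (d.th (d.T ω))|) ≤ ε := by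
  classical
  rw [← Pool.TIE38.cpn_eq_tup, Pr_eq_Pb] at h
  rw [Pr_eq_Pb] at hG
  refine poly_tup_ev hp (fun ω => ω ∈ G) hG d.L (fun ω => d.th (d.T ω))
    (fun ω => d.val (d.L ω) (d.T ω)) D δ ((2 : ℝ) ^ (-(k₀ : ℤ))) ε (by positivity) ?_
  have hq : IsLaw (cond d.P (fun ω => ω ∈ G) True) := isLaw_ev hp _ hG
  refine (Pb_le_of_imp (Pool.CLU.cpn_law hq d.L (D + 1)).nonneg fun v _ hv => ?_).trans h
  unfold SDat.Bad
  rw [Set.mem_ofPred_eq]
  by_contra hc
  push Not at hc
  refine hv ⟨?_, ?_⟩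
  · intro i i' hi
    exact hc.1 i i' hi
  · exact hc.2

end Pool.LSH
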