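import Pool.Agent.H50.LBL.GlbT
import Pool.Agent.H50.LBL.Thm

/-!
# LEMMA B, the value along the path

As `lbl_thm`, but the value of the shape along the path (instead of its gradient) is a polynomial in
the time, one equation for each sample; the shapes have no constant term. The conclusion is for the
gradient.
-/

set_option autoImplicit false

namespace Pool.LBL

open Finset Polynomial Matrix
open Pool.Agent.H49.Ent Pool.Agent.H32.Dense Pool.STK Pool.KS3 Pool.BFL Pool.GNB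

/-- The path with indeterminate coefficients. -/
noncomputable def vpath (k E : ℕ) (i : Fin k) : MvPolynomial (Fin (k * (E + 1))) ℝ[X] :=
  ∑ e : Fin (E + 1), MvPolynomial.X (finProdFinEquiv (i, e)) *
    MvPolynomial.C (Polynomial.X ^ (e : ℕ))

/-- A monomial along the path. -/
noncomputable def vmon (k E : ℕ) (α : Fin k →₀ ℕ) : MvPolynomial (Fin (k * (E + 1))) ℝ[X] :=
  MvPolynomial.eval₂ (MvPolynomial.C.comp Polynomial.C) (vpath k E)
    (MvPolynomial.monomial α (1 : ℝ))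

/-- The coefficients of the path as one vector. -/
def bv {k E : ℕ} (β : Fin k → Fin (E + 1) → ℝ) (x : Fin (k * (E + 1))) : ℝ :=
  β (finProdFinEquiv.symm x).1 (finProdFinEquiv.symm x).2

theorem vmon_eval (k E : ℕ) (α : Fin k →₀ ℕ) (T : ℝ) (β : Fin k → Fin (E + 1) → ℝ) :
    MvPolynomial.eval (pos β T) (MvPolynomial.monomial α (1 : ℝ)) =
      MvPolynomial.eval₂ (Polynomial.evalRingHom T) (bv β) (vmon k E α) := by
  unfold vmon
  have h := MvPolynomial.hom_eval₂ (MvPolynomial.monomial α (1 : ℝ))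
    (MvPolynomial.C.comp Polynomial.C : ℝ →+* MvPolynomial (Fin (k * (E + 1))) ℝ[X])
    (MvPolynomial.eval₂Hom (Polynomial.evalRingHom T) (bv β)) (vpath k E)
  rw [MvPolynomial.coe_eval₂Hom] at h
  rw [h]
  have h1 : ((MvPolynomial.eval₂Hom (Polynomial.evalRingHom T) (bv β)).comp
      (MvPolynomial.C.comp Polynomial.C)) = RingHom.id ℝ := by
    ext r
    simp
  have h2 : (fun i => MvPolynomial.eval₂ (Polynomial.evalRingHom T) (bv β) (vpath k E i)) =
      pos β T := by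
    funext i
    simp only [vpath, pos]
    rw [← MvPolynomial.coe_eval₂Hom, map_sum]
    refine Finset.sum_congr rfl fun e _ => ?_
    rw [map_mul, MvPolynomial.coe_eval₂Hom, MvPolynomial.eval₂_X, MvPolynomial.eval₂_C]
    unfold bv
    rw [Equiv.symm_apply_apply]
    simp
  rw [h1, h2]
  rfl

/-- The exponents of the path coefficients. -/
noncomputable def vexp (k D E : ℕ) : Finset (Fin (k * (E + 1)) →₀ ℕ) := by
  classical
  exact (mx k D).biUnion fun α => (vmon k E α).support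

/-- The non-zero exponents as an indexed family. -/
noncomputable def vx (k D : ℕ) (i : Fin (mx k D).card) : {α // α ∈ mx k D} :=
  (mx k D).equivFin.symm i

/-- The universal polynomials in the time. -/
noncomputable def va (k D E : ℕ) (_ : Fin 1) (γ : {γ // γ ∈ vexp k D E})
    (i : Fin (mx k D).card) : ℝ[X] := MvPolynomial.coeff γ.1 (vmon k E (vx k D i).1)

theorem vmon_sum (k D E : ℕ) (i : Fin (mx k D).card) (T : ℝ) (β : Fin k → Fin (E + 1) → ℝ) :
    MvPolynomial.eval₂ (Polynomial.evalRingHom T) (bv β) (vmon k E (vx k D i).1) =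
    ∑ γ : {γ // γ ∈ vexp k D E}, (va k D E 0 γ i).eval T * γ.1.prod fun x n => bv β x ^ n := by
  classical
  rw [MvPolynomial.eval₂_eq]
  have hsub : (vmon k E (vx k D i).1).support ⊆ vexp k D E := by
    intro γ hγ
    unfold vexp
    rw [Finset.mem_biUnion]
    exact ⟨_, (vx k D i).2, hγ⟩
  rw [Finset.sum_subset hsub (fun γ _ hγ => by
    rw [MvPolynomial.notMem_support_iff.1 hγ, map_zero, zero_mul])]
  rw [← Finset.sum_coe_sort (vexp k D E)]
  refine Finset.sum_congr rfl fun γ _ => ?_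
  rfl

/-- The value of the equation. -/
theorem ev_va (k D E : ℕ) (T : ℝ) (β : Fin k → Fin (E + 1) → ℝ) (s : Fin (mx k D).card → ℝ)
    (l : Fin 1) :
    Pool.GLB.ev (va k D E) (bv β) T s l =
      ∑ i, s i * MvPolynomial.eval (pos β T) (MvPolynomial.monomial (vx k D i).1 (1 : ℝ)) := by
  classical
  have hl : l = 0 := Subsingleton.elim _ _
  subst hl
  unfold Pool.GLB.ev
  have h1 : ∀ γ ∈ (Finset.univ : Finset {γ // γ ∈ vexp k D E}),
      (∑ i, (va k D E 0 γ i).eval T * s i) * γ.1.prod (fun i d => bv β i ^ d) =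
      ∑ i, s i * ((va k D E 0 γ i).eval T * γ.1.prod fun x n => bv β x ^ n) := by
    intro γ _
    rw [Finset.sum_mul]
    refine Finset.sum_congr rfl fun i _ => ?_
    ring
  rw [Finset.sum_congr rfl h1, Finset.sum_comm]
  refine Finset.sum_congr rfl fun i _ => ?_
  rw [← Finset.mul_sum, vmon_eval, vmon_sum]

/-- The coefficient vector. -/
noncomputable def vs (k D : ℕ) (S : Pl k) (i : Fin (mx k D).card) : ℝ :=
  MvPolynomial.coeff (vx k D i).1 S

/-- The polynomial of a vector. -/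
noncomputable def Vp (k D : ℕ) (s : Fin (mx k D).card → ℝ) : Pl k :=
  ∑ i, MvPolynomial.monomial (vx k D i).1 (s i)

theorem eval_Vp (k D : ℕ) (s : Fin (mx k D).card → ℝ) (y : Fin k → ℝ) :
    MvPolynomial.eval y (Vp k D s) =
      ∑ i, s i * MvPolynomial.eval y (MvPolynomial.monomial (vx k D i).1 (1 : ℝ)) := by
  unfold Vp
  rw [map_sum]
  refine Finset.sum_congr rfl fun i _ => ?_
  have h1 : MvPolynomial.monomial (vx k D i).1 (s i) =
      MvPolynomial.C (s i) * MvPolynomial.monomial (vx k D i).1 (1 : ℝ) := by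
    rw [MvPolynomial.C_mul_monomial, mul_one]
  rw [h1, map_mul, MvPolynomial.eval_C]

theorem Vp_deg (k D : ℕ) (s : Fin (mx k D).card → ℝ) : (Vp k D s).totalDegree ≤ k * D := by
  classical
  refine MvPolynomial.totalDegree_finsetSum_le fun i _ => ?_
  refine (MvPolynomial.totalDegree_monomial_le _ _).trans ?_
  have h3 := (vx k D i).2
  unfold mx at h3
  have h4 := Pool.Agent.H36.KBX.mem_bx.mp (Finset.mem_erase.mp h3).2
  rw [Finsupp.sum_fintype _ _ (fun _ => rfl)]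
  refine (Finset.sum_le_sum fun i _ => h4 i).trans (le_of_eq ?_)
  rw [Finset.sum_const, Finset.card_univ, Fintype.card_fin, smul_eq_mul]

theorem vx_inj (k D : ℕ) {i j : Fin (mx k D).card} (h : (vx k D i).1 = (vx k D j).1) : i = j :=
  (mx k D).equivFin.symm.injective (Subtype.ext h)

theorem coeff_Vp (k D : ℕ) (s : Fin (mx k D).card → ℝ) (i : Fin (mx k D).card) :
    MvPolynomial.coeff (vx k D i).1 (Vp k D s) = s i := by
  classical
  unfold Vp
  rw [MvPolynomial.coeff_sum, Finset.sum_eq_single i]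
  · rw [MvPolynomial.coeff_monomial, if_pos rfl]
  · intro j _ hne
    rw [MvPolynomial.coeff_monomial, if_neg]
    intro h
    exact hne (vx_inj k D h)
  · intro h
    exact absurd (Finset.mem_univ i) h

/-- A polynomial without constant term is given by its vector. -/
theorem Vp_vs {k D : ℕ} {S : Pl k} (hS : S.totalDegree ≤ D) (h0 : MvPolynomial.coeff 0 S = 0) :
    Vp k D (vs k D S) = S := by
  classical
  ext α
  by_cases hα : α ∈ mx k D
  · have h1 : vx k D ((mx k D).equivFin ⟨α, hα⟩) = ⟨α, hα⟩ := by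
      unfold vx
      rw [Equiv.symm_apply_apply]
    have h2 := coeff_Vp k D (vs k D S) ((mx k D).equivFin ⟨α, hα⟩)
    unfold vs at h2 ⊢
    rw [h1] at h2
    exact h2
  · have h1 : MvPolynomial.coeff α S = 0 := by
      by_cases h2 : α = 0
      · rw [h2, h0]
      · by_contra hc
        refine hα ?_
        unfold mx
        exact Finset.mem_erase.2 ⟨h2, bx_deg hS α hc⟩
    rw [h1]
    unfold Vp
    rw [MvPolynomial.coeff_sum]
    refine Finset.sum_eq_zero fun i _ => ?_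
    rw [MvPolynomial.coeff_monomial, if_neg]
    intro h
    exact hα (h ▸ (vx k D i).2)

theorem ev_vs {k D E : ℕ} {S : Pl k} (hS : S.totalDegree ≤ D) (h0 : MvPolynomial.coeff 0 S = 0)
    (T : ℝ) (β : Fin k → Fin (E + 1) → ℝ) (l : Fin 1) :
    Pool.GLB.ev (va k D E) (bv β) T (vs k D S) l = MvPolynomial.eval (pos β T) S := by
  rw [ev_va, ← eval_Vp, Vp_vs hS h0]

/-- The gradient in terms of the vector. -/
theorem grad_vs {k D : ℕ} {S : Pl k} (hS : S.totalDegree ≤ D) (y : Fin k → ℝ) (l : Fin k) :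
    MvPolynomial.eval y (MvPolynomial.pderiv l S) = ∑ i, vs k D S i *
      MvPolynomial.eval y (MvPolynomial.pderiv l
        (MvPolynomial.monomial (vx k D i).1 (1 : ℝ))) := by
  rw [grad_sum hS y l]
  unfold vs sv vx
  exact (Equiv.sum_comp (mx k D).equivFin.symm (fun α : {α // α ∈ mx k D} =>
    MvPolynomial.coeff α.1 S * MvPolynomial.eval y (MvPolynomial.pderiv l
      (MvPolynomial.monomial α.1 (1 : ℝ))))).symm

/-- The polynomial in the time and the position of a vector of polynomials in the time. -/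
theorem Gpoly_vs {k D dR : ℕ} (R : Fin (mx k D).card → ℝ[X]) (hR : ∀ i, (R i).natDegree ≤ dR) :
    ∃ G : Pl (k + 1), G.totalDegree ≤ dR + k * D ∧ ∀ (T : ℝ) (y : Fin k → ℝ) (l : Fin k),
      MvPolynomial.eval (Fin.cons T y : Fin (k + 1) → ℝ) (MvPolynomial.pderiv l.succ G) =
        ∑ i, (R i).eval T *
          MvPolynomial.eval y (MvPolynomial.pderiv l
            (MvPolynomial.monomial (vx k D i).1 (1 : ℝ))) := by
  obtain ⟨G, h1, h2⟩ := Gpoly (k := k) (D := D) (dR := dR)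
    (fun α => R ((mx k D).equivFin α)) (fun α => hR _)
  refine ⟨G, h1, fun T y l => ?_⟩
  rw [h2]
  unfold vx
  rw [← Equiv.sum_comp (mx k D).equivFin.symm]
  refine Finset.sum_congr rfl fun i _ => ?_
  rw [Equiv.apply_symm_apply]

/-- **LEMMA B, values.** -/
def LBVStmt : Prop :=
  ∀ (k n D E : ℕ) (C₀ : ℝ), 1 ≤ C₀ → ∃ (C : ℝ) (A₂ Nn : ℕ), 1 ≤ C ∧ ∀ a : ℕ, ∃ A K₂ : ℕ,
    ∀ (R : ℕ) (Ω Γ : Type) [Fintype Ω] (p : Ω → ℝ) (L : ℕ) (Y : ℕ → Ω → Fin k → ℕ) (c : Ω → Γ)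
      (β : Ω → Fin k → Fin (E + 1) → ℝ) (t : ℕ → Γ → ℝ) (v : Γ → Fin n → ℝ) (S : ℕ → Γ → Pl k)
      (S' : Γ → Fin n → Pl k) (g : Ω → ℝ[X]) (Gd : Ω → Prop) (Λ τ θ η : ℝ),
      0 < R → IsLaw p → (∀ r < R, ∀ ω i, Y r ω i < 2 ^ L) → (∀ r x, (S r x).totalDegree ≤ D) →
      (∀ x j, (S' x j).totalDegree ≤ D) → (∀ r x, MvPolynomial.coeff 0 (S r x) = 0) →
      (∀ x j, MvPolynomial.coeff 0 (S' x j) = 0) → 0 ≤ θ → 0 < η → η ≤ 1 → 0 < τ →
      (∀ r < R, k * (L * Real.log 2) - θ ≤ CH p (Y r) c) →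
      Pb p (fun ω => ¬ Gd ω) ≤ η / 4 → C * (θ + 1) / η ≤ L * Real.log 2 →
      Real.exp (C * (θ + 1) / η) ≤ Λ → C ≤ Λ → τ * Λ ^ A ≤ 1 →
      (∀ ω, Gd ω → (∀ i e, |β ω i e| ≤ C₀) ∧ (∀ r < R, |t r (c ω)| ≤ 1) ∧
        (∀ j, |v (c ω) j| ≤ 1) ∧ (∀ i j, i ≠ j → 1 ≤ Λ * |v (c ω) i - v (c ω) j|) ∧
        (g ω).degree < n ∧
        (∀ r < R, ∀ i, |pos (β ω) (t r (c ω)) i - (Y r ω i : ℝ) / 2 ^ L| ≤ C₀ / 2 ^ L) ∧
        (∀ r < R, ∀ α, |MvPolynomial.coeff α (S r (c ω))| ≤ Λ) ∧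
        (∀ j α, |MvPolynomial.coeff α (S' (c ω) j)| ≤ Λ) ∧
        (∀ r < R, |MvPolynomial.eval (pos (β ω) (t r (c ω))) (S r (c ω)) -
          (g ω).eval (t r (c ω))| ≤ τ) ∧
        (∀ j, |MvPolynomial.eval (pos (β ω) (v (c ω) j)) (S' (c ω) j) -
          (g ω).eval (v (c ω) j)| ≤ τ)) →
      ∃ r < R, ∃ F : (Fin n → ℝ) → (Fin n → Pl k) → (Fin r → ℝ × Pl k) → ℤ → Pl (k + 1),
        (∀ v S' P z, (F v S' P z).totalDegree ≤ K₂) ∧
        Pb p (fun ω => Gd ω ∧ ¬ ∀ z : Fin k → ℝ, (∀ i, |z i| ≤ C₀) → ∀ l,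
          |MvPolynomial.eval z (MvPolynomial.pderiv l (S r (c ω))) -
            MvPolynomial.eval (Fin.cons (t r (c ω)) z : Fin (k + 1) → ℝ)
              (MvPolynomial.pderiv l.succ (F (v (c ω)) (S' (c ω))
                (fun i : Fin r => (t i (c ω), S i (c ω))) ⌊t r (c ω) * Λ ^ A₂⌋))| * Λ ^ a ≤ 1) ≤
          (Nn : ℝ) / R + C * η

/-- **LEMMA B, values.** -/
theorem lbv_thm : LBVStmt := by
  classical
  intro k n D E C₀ hC₀
  obtain ⟨Cr, hCr, hren⟩ := Pool.Agent.H33.BFL.ren_thm k (k * D) C₀ hC₀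
  obtain ⟨Cc, hCc0, hCc⟩ := Pool.Agent.H36.KBX.coef_bound k (k * D)
  obtain ⟨Cm, hCm1, hCm⟩ := mono_bound k D hC₀
  obtain ⟨Cg, A₂, hCg, hglb⟩ := Pool.GLB.glb_thm (k * (E + 1)) (mx k D).card 1 n (vexp k D E)
    (va k D E) C₀ hC₀ 3
  obtain ⟨M, hM⟩ : ∃ M : ℝ, M = ((mx k D).card : ℝ) := ⟨_, rfl⟩
  have hM0 : 0 ≤ M := by rw [hM]; positivity
  have hMC : 0 ≤ M * Cm := by positivity
  obtain ⟨C, hC⟩ : ∃ C : ℝ, C = Cr + Cg + Cc + M * Cm + 2 := ⟨_, rfl⟩
  refine ⟨C, A₂, (vexp k D E).card, by linarith only [hCr, hCc0, hCg, hMC, hC], fun a => ?_⟩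
  obtain ⟨A, K₂, H⟩ := hglb (a + 1)
  refine ⟨A, K₂ + k * D, ?_⟩
  intro R Ω Γ _ p L Y c β t v S S' g Gd Λ τ θ η hR hp hY hSd hS'd hS0 hS'0 hθ hη hη1 hτ hH hGd hL
    hexp hCΛ hτΛ hgood
  have hCr1 : Cr ≤ C := by linarith only [hCc0, hCg, hMC, hC]
  have hlog : Cr * (θ + 1) / η ≤ C * (θ + 1) / η := by
    refine div_le_div_of_nonneg_right ?_ hη.le
    exact mul_le_mul_of_nonneg_right hCr1 (by linarith only [hθ])
  have hexp' : Real.exp (Cr * (θ + 1) / η) ≤ Λ := (Real.exp_le_exp.2 hlog).trans hexp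
  have hΛ1 : 1 ≤ Λ := by linarith only [hCr, hCc0, hCg, hMC, hC, hCΛ]
  have hΛ0 : 0 < Λ := by linarith only [hCr, hCc0, hCg, hMC, hC, hCΛ]
  -- no relation
  have hrel : ∀ r < R, ∀ s₀ : Γ → Fin (mx k D).card → ℝ, (∀ y α, |s₀ y α| ≤ 1) →
      (∀ ω, Gd ω → (∃ α, |s₀ (c ω) α| = 1) →
        ∀ l, |Pool.GLB.ev (va k D E) (bv (β ω)) (t r (c ω)) (s₀ (c ω)) l| * Λ ^ 3 ≤ 1) →
      Pb p (fun ω => Gd ω ∧ ∃ α, |s₀ (c ω) α| = 1) ≤ η := by
    intro r hr s₀ hs1 hs2
    obtain ⟨Q, hQ⟩ : ∃ Q : Γ → Pl k, Q = fun x => if ∃ α, |s₀ x α| = 1 then Vp k D (s₀ x) else 0 :=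
      ⟨_, rfl⟩
    have hQd : ∀ x, (Q x).totalDegree ≤ k * D := by
      intro x
      rw [hQ]
      simp only
      split_ifs
      · exact Vp_deg _ _ _
      · rw [MvPolynomial.totalDegree_zero]
        exact Nat.zero_le _
    have key := hren Ω Γ p L (Y r) c Q Gd (fun _ => 1 / Λ ^ 3) θ η hp (hY r hr) hQd hθ hη hη1
      (hH r hr) hGd (fun _ => by positivity) (hlog.trans hL) (by
        intro ω hω
        obtain ⟨g1, g2, g3, g4, g5, g6, g7⟩ := hgood ω hω
        refine ⟨pos (β ω) (t r (c ω)), g6 r hr, ?_⟩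
        rw [hQ]
        simp only
        split_ifs with h1
        · have h2 := hs2 ω hω h1 0
          rw [ev_va, ← eval_Vp] at h2
          rw [le_div_iff₀ (by positivity)]
          exact h2
        · rw [map_zero, abs_zero]
          positivity)
    refine le_trans (Pb_mono hp.nonneg fun ω hω => ?_) key
    obtain ⟨_, α, hα⟩ := hω
    intro hcon
    have h1 : ∀ y : Fin k → ℝ, (∀ i, |y i| ≤ 1) →
        |MvPolynomial.eval y (Vp k D (s₀ (c ω)))| ≤ Λ * (1 / Λ ^ 3) := by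
      intro y hy
      have h2 := hcon y (fun i => (hy i).trans hC₀)
      rw [hQ] at h2
      simp only at h2
      rw [if_pos ⟨α, hα⟩] at h2
      exact h2.trans (mul_le_mul_of_nonneg_right hexp' (by positivity))
    have h2 := hCc (Vp k D (s₀ (c ω))) (Λ * (1 / Λ ^ 3)) (Vp_deg _ _ _) h1 (vx k D α).1
    rw [coeff_Vp, hα] at h2
    have h3 : Cc * (Λ * (1 / Λ ^ 3)) = Cc / Λ ^ 2 := by field_simp
    rw [h3, le_div_iff₀ (by positivity), one_mul] at h2
    have h4 : Λ * 1 ≤ Λ * Λ := mul_le_mul_of_nonneg_left hΛ1 hΛ0.le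
    rw [sq] at h2
    linarith only [hCr, hCg, hMC, hC, hCΛ, h2, h4]
  obtain ⟨r, hr, F, hFd, hF⟩ := H R Ω Γ p c (fun ω => bv (β ω)) t v
    (fun r x => vs k D (S r x)) (fun x j => vs k D (S' x j)) (fun ω _ => g ω) Gd Λ τ η hR hp hτ
    (by linarith only [hCr, hCc0, hMC, hC, hCΛ]) hτΛ (by
      intro ω hω
      obtain ⟨g1, g2, g3, g4, g5, g6, g7, g8, g9, g10⟩ := hgood ω hω
      refine ⟨fun i => g1 _ _, g2, g3, g4, fun _ => g5, fun r hr α => g7 r hr _,
        fun i α => g8 i _, fun r hr l => ?_, fun i l => ?_⟩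
      · rw [ev_vs (hSd _ _) (hS0 _ _)]
        exact g9 r hr
      · rw [ev_vs (hS'd _ _) (hS'0 _ _)]
        exact g10 i) hrel
  choose G hG1 hG2 using fun (v : Fin n → ℝ) (S' : Fin n → Pl k) (P : Fin r → ℝ × Pl k) (z : ℤ) =>
    Gpoly_vs (k := k) (D := D) (dR := K₂)
      (fun i => F v (fun j => vs k D (S' j)) (fun i => ((P i).1, vs k D (P i).2)) z i)
      (fun i => hFd _ _ _ _ i)
  refine ⟨r, hr, G, fun v S' P z => hG1 v S' P z, ?_⟩
  have hη' : η ≤ C * η := by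
    have h1 : 1 * η ≤ C * η := mul_le_mul_of_nonneg_right (by linarith only [hCr, hCc0, hCg, hMC, hC]) hη.le
    linarith only [h1]
  refine (Pb_mono hp.nonneg fun ω hω => ?_).trans (hF.trans (by linarith only [hη']))
  refine ⟨hω.1, fun hcon => hω.2 fun z hz l => ?_⟩
  obtain ⟨T, hT⟩ : ∃ T, T = t r (c ω) := ⟨_, rfl⟩
  rw [← hT] at hcon ⊢
  rw [hG2, grad_vs (hSd r (c ω)) z l, ← Finset.sum_sub_distrib]
  have h1 : ∀ i ∈ (Finset.univ : Finset (Fin (mx k D).card)),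
      |vs k D (S r (c ω)) i * MvPolynomial.eval z (MvPolynomial.pderiv l
        (MvPolynomial.monomial (vx k D i).1 (1 : ℝ))) -
      (F (v (c ω)) (fun j => vs k D (S' (c ω) j)) (fun i : Fin r => (t i (c ω), vs k D (S i (c ω))))
        ⌊T * Λ ^ A₂⌋ i).eval T * MvPolynomial.eval z (MvPolynomial.pderiv l
        (MvPolynomial.monomial (vx k D i).1 (1 : ℝ)))| ≤ 1 / Λ ^ (a + 1) * Cm := by
    intro i _
    rw [← sub_mul, abs_mul]
    refine mul_le_mul ?_ (hCm z hz l (vx k D i)) (abs_nonneg _) (by positivity)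
    rw [le_div_iff₀ (by positivity)]
    exact hcon i
  have h2 := (Finset.abs_sum_le_sum_abs _ _).trans (Finset.sum_le_sum h1)
  rw [Finset.sum_const, Finset.card_univ, Fintype.card_fin, nsmul_eq_mul, ← hM] at h2
  have h3 := mul_le_mul_of_nonneg_right h2 (pow_pos hΛ0 a).le
  refine h3.trans ?_
  have h4 : M * (1 / Λ ^ (a + 1) * Cm) * Λ ^ a = M * Cm / Λ := by
    rw [pow_succ]
    field_simp
  rw [h4, div_le_one hΛ0]
  linarith only [hCr, hCc0, hCg, hC, hCΛ]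

end Pool.LBL
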