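import Pool.Agent.H50.VAL.ValG
import Pool.Agent.H50.VAL.LbvC

/-!
# The local theorem, the value of the shape along the path relative to a base point

`ValC`: as `ValG`, but the value of the shape along the path is taken relative to a fixed point
`b₀`; the shape may have a constant term, its coefficients are bounded except for the constant term.
-/

set_option autoImplicit false

namespace Pool.LSH

open Finset Polynomial
open Pool.Agent.H49.Ent Pool.Agent.H32.Dense Pool.STK Pool.BFL Pool.LBL Pool.MIC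
open Pool.K2S (cpn)

/-- Typical samples: the path and the value of the shape along the path relative to `b₀`. -/
def TypC {Ω Λ : Type} {k E : ℕ} (L : Ω → Λ) (th : Ω → ℕ) (Y : Ω → Fin k → ℕ) (kap : Ω → Pl k)
    (β : Λ → Fin k → Fin (E + 1) → ℝ) (g : Λ → ℝ[X]) (b₀ : Fin k → ℝ) (n J X s : ℕ) (C₀ : ℝ)
    (ω : Ω) : Prop :=
  (∀ i j, |β (L ω) i j| ≤ C₀) ∧ (g (L ω)).degree < n ∧
    (∀ i, |pos (β (L ω)) ((th ω : ℝ) / 2 ^ J) i - (Y ω i : ℝ) / 2 ^ X| ≤ C₀ / 2 ^ X) ∧
    |MvPolynomial.eval (pos (β (L ω)) ((th ω : ℝ) / 2 ^ J)) (kap ω) -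
      MvPolynomial.eval b₀ (kap ω) - (g (L ω)).eval ((th ω : ℝ) / 2 ^ J)| ≤ 1 / 2 ^ s

/-- The hypotheses of the local theorem at one context, relative values, on an event. -/
structure ValC {Ω Λ Γ Β : Type} [Fintype Ω] {k E : ℕ} (p : Ω → ℝ) (L : Ω → Λ) (b : Ω → Γ)
    (B : Ω → Β) (th : Ω → ℕ) (Y : Ω → Fin k → ℕ) (kap : Ω → Pl k) (G : Ω → Prop)
    (β : Λ → Fin k → Fin (E + 1) → ℝ) (g : Λ → ℝ[X]) (b₀ : Fin k → ℝ)
    (n D N J X y s bb : ℕ) (C₀ θ κ₁ ϖ e : ℝ) : Prop where
  isLaw : IsLaw p
  b_L : Det p L b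
  B_L : Det p L B
  Y_B : Det p (fun ω => (B ω, (b ω, th ω))) Y
  th_le : ∀ ω, th ω ≤ 2 ^ J
  Y_lt : ∀ ω i, Y ω i < 2 ^ X
  deg : ∀ ω, (kap ω).totalDegree ≤ D
  cf : ∀ ω α, α ≠ 0 → |MvPolynomial.coeff α (kap ω)| ≤ 2 ^ bb
  /-- the position is full given the context and the time -/
  full : k * (X * Real.log 2) - θ ≤ CH p Y (fun ω => (b ω, th ω))
  /-- the shape has few bits given the context and the time, on an event -/
  G_ge : ϖ ≤ Pb p G
  few : CH (cond p G True) (fun ω => rk s (kap ω)) (fun ω => (b ω, th ω)) ≤ κ₁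
  /-- the times of `N + 1` samples are almost independent of the block of the line -/
  times : CH (Pool.K2S.cpn p L N) (fun w => B (w 0)) (fun w => b (w 0)) ≤
    CH (Pool.K2S.cpn p L N) (fun w => B (w 0)) (fun w => (b (w 0), fun i => th (w i))) + θ
  /-- typical samples of the event -/
  typ : Pb p (fun ω => G ω ∧ ¬ TypC L th Y kap β g b₀ n J X s C₀ ω) ≤ e
  /-- two samples of one line have different times -/
  sep : Pb (dbl p L) (fun w : Ω × Ω =>
    |((th w.1 : ℝ) / 2 ^ J) - ((th w.2 : ℝ) / 2 ^ J)| * 2 ^ y < 1) ≤ e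

/-- **The local theorem, relative values, on an event.** -/
def MicValCStmt : Prop :=
  ∀ (k n D E V : ℕ) (C₀ ϖ : ℝ) (b₀ : Fin k → ℝ), 1 ≤ C₀ → (∀ i, |b₀ i| ≤ 1) → 0 < ϖ → ϖ ≤ 1 →
    ∃ (A₂ a A K₂ N : ℕ) (c₁ C : ℝ), V * A₂ < a ∧ 0 < c₁ ∧ 1 ≤ C ∧
    ∀ (Ω Λ Γ Β : Type) [Fintype Ω] (p : Ω → ℝ) (L : Ω → Λ) (b : Ω → Γ)
      (B : Ω → Β) (th : Ω → ℕ) (Y : Ω → Fin k → ℕ) (kap : Ω → Pl k) (G : Ω → Prop)
      (β : Λ → Fin k → Fin (E + 1) → ℝ) (g : Λ → ℝ[X]) (J X y s bb : ℕ) (θ κ₁ : ℝ),
      0 ≤ θ → 0 ≤ κ₁ → C * (θ + κ₁ + 1) ≤ y → bb + 2 ≤ y → A * y ≤ s → s ≤ X →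
      ValC p L b B th Y kap G β g b₀ n D N J X y s bb C₀ θ κ₁ ϖ c₁ →
      ∃ H : Λ → ℤ → Pl (k + 1), (∀ l z, (H l z).totalDegree ≤ K₂) ∧
        c₁ ≤ Pb p (fun ω => G ω ∧ ∀ z : Fin k → ℝ, (∀ i, |z i| ≤ C₀) → ∀ l,
          |MvPolynomial.eval z (MvPolynomial.pderiv l (kap ω)) -
            MvPolynomial.eval (Fin.cons ((th ω : ℝ) / 2 ^ J) z : Fin (k + 1) → ℝ)
              (MvPolynomial.pderiv l.succ (H (L ω) ⌊(th ω : ℝ) / 2 ^ J * 2 ^ (A₂ * y)⌋))| *
            2 ^ (a * y) ≤ 2)

/-- The relative value of the rounded polynomial. -/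
theorem val_Sp_c (k D : ℕ) (C₀ : ℝ) (b₀ : Fin k → ℝ) (hC₀ : 1 ≤ C₀) (hb₀ : ∀ i, |b₀ i| ≤ C₀) :
    ∃ C : ℝ, 1 ≤ C ∧ ∀ (P : Pl k) (s : ℕ), P.totalDegree ≤ D →
    ∀ (z : Fin k → ℝ), (∀ i, |z i| ≤ C₀) →
    |(MvPolynomial.eval z P - MvPolynomial.eval b₀ P) - (MvPolynomial.eval z (Sp D s (rk s P)) -
      MvPolynomial.eval b₀ (Sp D s (rk s P)))| ≤ C / 2 ^ s := by
  classical
  obtain ⟨C, hC, h⟩ := val_Sp k D C₀ hC₀
  refine ⟨2 * C, by linarith only [hC], ?_⟩
  intro P s hP z hz
  obtain ⟨Q, hQ⟩ : ∃ Q : Pl k, Q = P - MvPolynomial.C (MvPolynomial.coeff 0 P) := ⟨_, rfl⟩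
  have hQd : Q.totalDegree ≤ D := by
    rw [hQ]
    refine (MvPolynomial.totalDegree_sub _ _).trans (max_le hP ?_)
    rw [MvPolynomial.totalDegree_C]
    exact Nat.zero_le _
  have hQ0 : MvPolynomial.coeff 0 Q = 0 := by
    rw [hQ, MvPolynomial.coeff_sub, MvPolynomial.coeff_C, if_pos rfl, sub_self]
  have hrk : rk s Q = rk s P := by
    funext α
    unfold Pool.MIC.rk
    by_cases hα : α = 0
    · rw [if_pos hα, if_pos hα]
    · rw [if_neg hα, if_neg hα, hQ, MvPolynomial.coeff_sub, MvPolynomial.coeff_C,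
        if_neg (Ne.symm hα), sub_zero]
  have h1 := h Q s hQd hQ0 z hz
  have h2 := h Q s hQd hQ0 b₀ hb₀
  rw [hrk] at h1 h2
  have h3 : MvPolynomial.eval z P - MvPolynomial.eval b₀ P =
      MvPolynomial.eval z Q - MvPolynomial.eval b₀ Q := by
    rw [hQ, map_sub, map_sub, MvPolynomial.eval_C, MvPolynomial.eval_C]
    ring
  rw [h3]
  have h4 : 2 * C / 2 ^ s = C / 2 ^ s + C / 2 ^ s := by ring
  rw [h4]
  rw [abs_le] at h1 h2 ⊢
  constructor <;> linarith only [h1.1, h1.2, h2.1, h2.2]

/-- **The local theorem, relative values, on an event.** -/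
theorem mic_val_C : MicValCStmt := by
  classical
  intro k n D E V C₀ ϖ b₀ hC₀ hb₀ hϖ hϖ1
  have hl2 : 0 < Real.log 2 := Real.log_pos (by norm_num)
  obtain ⟨CL, A₂, Nn, hCL, hL1⟩ := lbc_thm k n D E (2 * C₀ + 1) b₀ (by linarith only [hC₀])
  obtain ⟨a, ha⟩ : ∃ a : ℕ, a = V * A₂ + 1 := ⟨_, rfl⟩
  obtain ⟨AL, K₂, hL⟩ := hL1 a
  obtain ⟨R, hR⟩ : ∃ R : ℕ, R = 8 * Nn + 8 := ⟨_, rfl⟩
  have hR0 : 0 < R := by omega
  obtain ⟨N, hN⟩ : ∃ N : ℕ, N = R + n - 1 := ⟨_, rfl⟩
  have hN1 : N + 1 = R + n := by omega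
  obtain ⟨CS, hCS, hSm⟩ := smp_thm N ϖ hϖ
  obtain ⟨Cτ₁, hCτ₁, hgr₁⟩ := grad_Sp k D (2 * C₀ + 1) (by linarith only [hC₀])
  obtain ⟨Cτ₂, hCτ₂, hvl₁⟩ := val_Sp_c k D (2 * C₀ + 1) b₀ (by linarith only [hC₀])
    (fun i => (hb₀ i).trans (by linarith only [hC₀]))
  obtain ⟨Cτ, hCτd⟩ : ∃ Cτ : ℝ, Cτ = Cτ₁ + Cτ₂ := ⟨_, rfl⟩
  have hCτ : 1 ≤ Cτ := by linarith only [hCτ₁, hCτ₂, hCτd]
  have hgr : ∀ (P : Pl k) (s : ℕ), P.totalDegree ≤ D → ∀ (z : Fin k → ℝ),
      (∀ i, |z i| ≤ 2 * C₀ + 1) → ∀ l, |MvPolynomial.eval z (MvPolynomial.pderiv l P) -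
        MvPolynomial.eval z (MvPolynomial.pderiv l (Sp D s (rk s P)))| ≤ Cτ / 2 ^ s :=
    fun P s hP z hz l => (hgr₁ P s hP z hz l).trans
      (div_le_div_of_nonneg_right (by linarith only [hCτ₂, hCτd]) (by positivity))
  have hvl : ∀ (P : Pl k) (s : ℕ), P.totalDegree ≤ D →
      ∀ (z : Fin k → ℝ), (∀ i, |z i| ≤ 2 * C₀ + 1) → |(MvPolynomial.eval z P -
        MvPolynomial.eval b₀ P) - (MvPolynomial.eval z (Sp D s (rk s P)) -
          MvPolynomial.eval b₀ (Sp D s (rk s P)))| ≤ Cτ / 2 ^ s :=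
    fun P s hP z hz => (hvl₁ P s hP z hz).trans
      (div_le_div_of_nonneg_right (by linarith only [hCτ₁, hCτd]) (by positivity))
  obtain ⟨cτ, hcτ⟩ := pow_unbounded_of_one_lt (Cτ + 1) (by norm_num : (1 : ℝ) < 2)
  obtain ⟨C, hC⟩ : ∃ C : ℝ, C = 16 * CL * CL * (CS + 1) := ⟨_, rfl⟩
  have hCL1 : 1 ≤ CL := hCL
  have hC1 : 1 ≤ C := by
    rw [hC]
    nlinarith only [hCL1, hCL, hCS, mul_le_mul hCL1 hCL1 zero_le_one (by linarith only [hCL] : (0 : ℝ) ≤ CL)]
  exact by
   obtain ⟨c₁, hc₁⟩ : ∃ c₁ : ℝ, c₁ = ϖ ^ (N + 1) * (1 / (8 * CL)) / 4 /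
     ((N + 1) * (N + 2)) := ⟨_, rfl⟩
   have hπ : 0 < ϖ ^ (N + 1) := by positivity
   have hCL0 : 0 < CL := by linarith only [hCL]
   have hc₁0 : 0 < c₁ := by rw [hc₁]; positivity
   refine ⟨A₂, a, AL + a + cτ + 1, K₂, N, c₁, C, by rw [ha]; omega, hc₁0, hC1, ?_⟩
   intro Ω Λ Γ Β _ p L b B th Y kap G β g J X y s bb θ κ₁ hθ hκ₁0 hy hbb hAs hsX hM
   have hys : y ≤ s := by
     refine le_trans ?_ hAs
     exact Nat.le_mul_of_pos_left y (by omega)
   have hAs' : (AL + a + cτ + 1) * y ≤ s := hAs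
   have hp := hM.isLaw
   have hyR : (y : ℝ) ≤ X := by exact_mod_cast hys.trans hsX
   have hC' : CL * CL * (CS * (θ + κ₁ + 0 + 1) + 1) * 8 ≤ y * Real.log 2 := by
     have h1 : CS * (θ + κ₁ + 0 + 1) + 1 ≤ (CS + 1) * (θ + κ₁ + 1) := by nlinarith only [hθ, hκ₁0]
     have h2 : 0 ≤ CL * CL := by positivity
     have h3 := mul_le_mul_of_nonneg_left h1 h2
     have h4 : (1 : ℝ) / 2 ≤ Real.log 2 := by linarith only [hl2, Real.log_two_gt_d9]
     have h5 : (y : ℝ) * (1 / 2) ≤ y * Real.log 2 :=
       mul_le_mul_of_nonneg_left h4 (Nat.cast_nonneg _)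
     rw [hC] at hy
     nlinarith only [hy, h3, h5]
   have k1 : CL * (CS * (θ + κ₁ + 0 + 1) + 1) / (1 / (8 * CL)) ≤ y * Real.log 2 := by
     have h1 : CL * (CS * (θ + κ₁ + 0 + 1) + 1) / (1 / (8 * CL)) =
         CL * CL * (CS * (θ + κ₁ + 0 + 1) + 1) * 8 := by
       field_simp
     rw [h1]
     exact hC'
   have k4 : (1 : ℝ) ≤ y := by
     have h1 : C * 1 ≤ C * (θ + κ₁ + 1) := mul_le_mul_of_nonneg_left (by linarith only [hθ, hκ₁0]) (by linarith only [hC1])
     linarith only [hC1, hy, h1]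
   exact by
    have k2 : CL ≤ y := by
      have h1 : C * 1 ≤ C * (θ + κ₁ + 1) := mul_le_mul_of_nonneg_left (by linarith only [hθ, hκ₁0]) (by linarith only [hC1])
      have h2 : CL ≤ C := by
        rw [hC]
        have h3 : 1 * CL ≤ 16 * (CL * (CS + 1)) * CL :=
          mul_le_mul_of_nonneg_right (by nlinarith only [hCL, hCS]) (by linarith only [hCL])
        linarith only [h3]
      linarith only [hy, h1, h2]
    have k6 : CL * (CS * (θ + κ₁ + 0 + 1) + 1) / (1 / (8 * CL)) ≤ X * Real.log 2 :=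
      k1.trans (mul_le_mul_of_nonneg_right hyR hl2.le)
    obtain ⟨hall, hsm⟩ := hSm Ω Λ Γ Β ℕ ((Fin k →₀ ℕ) → ℤ) (Fin k → ℕ) p L b B th
      (fun ω => rk s (kap ω)) Y G (k * (X * Real.log 2)) κ₁ 0 θ hp hκ₁0 le_rfl hθ hM.b_L hM.B_L
      hM.Y_B hM.G_ge hM.few hM.full
      (fun Ω' Τ' _ r f W hr => by
        rw [add_zero]
        exact CH_nat_le hr (fun w => Y (f w)) (fun w => hM.Y_lt (f w)) W)
      hM.times
    obtain ⟨P, hP⟩ : ∃ P : (Fin (N + 1) → Ω) → ℝ, P = cpn p L N := ⟨_, rfl⟩
    rw [← hP] at hall hsm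
    have hPlaw : IsLaw P := by rw [hP]; exact Pool.CLU.cpn_law hp L N
    obtain ⟨EE, hEE⟩ : ∃ EE : (Fin (N + 1) → Ω) → Prop, EE = fun w => ∀ i, G (w i) := ⟨_, rfl⟩
    rw [← hEE] at hall hsm
    have hEE0 : 0 < Pb P EE := lt_of_lt_of_le hπ hall
    obtain ⟨q, hq⟩ : ∃ q : (Fin (N + 1) → Ω) → ℝ, q = cond P EE True := ⟨_, rfl⟩
    rw [← hq] at hsm
    have hqlaw : IsLaw q := by rw [hq]; exact isLaw_ev hPlaw EE hEE0
    obtain ⟨θ', hθ'⟩ : ∃ θ' : ℝ, θ' = CS * (θ + κ₁ + 0 + 1) := ⟨_, rfl⟩
    rw [← hθ'] at hsm k1 k6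
    have hθ'0 : 0 ≤ θ' := by rw [hθ']; positivity
    -- the typical event
    exact by
     obtain ⟨Gd, hGd⟩ : ∃ Gd : (Fin (N + 1) → Ω) → Prop, Gd = fun w =>
       (∀ i, L (w i) = L (w 0)) ∧ (∀ i, TypC L th Y kap β g b₀ n J X s C₀ (w i)) ∧
         (∀ i j, i ≠ j → ¬ |((th (w i) : ℝ) / 2 ^ J) - ((th (w j) : ℝ) / 2 ^ J)| * 2 ^ y < 1) :=
       ⟨_, rfl⟩
     have hGdP : Pb P (fun w => EE w ∧ ¬ Gd w) ≤ (N + 1) * (N + 2) * c₁ := by
       obtain ⟨Ev, hEv⟩ : ∃ Ev : Fin (N + 1) ⊕ (Fin (N + 1) × Fin (N + 1)) →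
           (Fin (N + 1) → Ω) → Prop, Ev = Sum.elim
           (fun i w => G (w i) ∧ ¬ TypC L th Y kap β g b₀ n J X s C₀ (w i))
           (fun ij w => ij.1 ≠ ij.2 ∧
             |((th (w ij.1) : ℝ) / 2 ^ J) - ((th (w ij.2) : ℝ) / 2 ^ J)| * 2 ^ y < 1) := ⟨_, rfl⟩
       have h1 : Pb P (fun w => EE w ∧ ¬ Gd w) ≤ Pb P (fun w => ∃ i, Ev i w) := by
         refine Pb_mono_ae hPlaw.nonneg fun w hw h => ?_
         rw [hGd, hEE] at h
         have h2 : ∀ i, L (w i) = L (w 0) := by
           rw [hP] at hw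
           exact (Pool.CLU.cpn_pos hp.nonneg L N w hw).2
         by_contra hc
         push Not at hc
         refine h.2 ⟨h2, fun i => ?_, fun i j hij => ?_⟩
         · have h3 := hc (Sum.inl i)
           rw [hEv] at h3
           simp only [Sum.elim_inl, not_and, not_not] at h3
           exact h3 (h.1 i)
         · have h3 := hc (Sum.inr (i, j))
           rw [hEv] at h3
           simp only [Sum.elim_inr, not_and] at h3
           exact h3 hij
       refine h1.trans ((Pb_exists_le hPlaw.nonneg Ev).trans ?_)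
       rw [Fintype.sum_sum_type]
       have h2 : ∀ i : Fin (N + 1), Pb P (Ev (Sum.inl i)) ≤ c₁ := by
         intro i
         refine le_trans (le_of_eq ?_) hM.typ
         rw [hEv, hP]
         exact Marg.Pb_eq (Pool.CLU.cpn_marg hp.nonneg L N i)
           (fun ω => G ω ∧ ¬ TypC L th Y kap β g b₀ n J X s C₀ ω)
       have h3 : ∀ ij : Fin (N + 1) × Fin (N + 1), Pb P (Ev (Sum.inr ij)) ≤ c₁ := by
         rintro ⟨i, j⟩
         by_cases hij : i = j
         · have h4 : Pb P (Ev (Sum.inr (i, j))) ≤ 0 := by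
             refine (Pb_mono_ae hPlaw.nonneg (B := fun _ => False) fun w _ h => ?_).trans ?_
             · rw [hEv] at h
               simp only [Sum.elim_inr] at h
               exact h.1 hij
             · unfold Pb
               simp
           exact h4.trans hc₁0.le
         · refine le_trans ?_ hM.sep
           rw [hEv, hP]
           refine le_trans (Pb_mono_ae (hP ▸ hPlaw.nonneg) (B := fun w =>
             |((th (w i, w j).1 : ℝ) / 2 ^ J) - ((th (w i, w j).2 : ℝ) / 2 ^ J)| * 2 ^ y < 1)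
             fun w _ h => ?_) (le_of_eq ?_)
           · simp only [Sum.elim_inr] at h
             exact h.2
           · exact Marg.Pb_eq (cpn_pair hp.nonneg L N hij) (fun w : Ω × Ω =>
               |((th w.1 : ℝ) / 2 ^ J) - ((th w.2 : ℝ) / 2 ^ J)| * 2 ^ y < 1)
       have h4 := Finset.sum_le_sum fun (i : Fin (N + 1)) (_ : i ∈ Finset.univ) => h2 i
       have h5 := Finset.sum_le_sum fun (i : Fin (N + 1) × Fin (N + 1))
         (_ : i ∈ Finset.univ) => h3 i
       rw [Finset.sum_const, Finset.card_univ, Fintype.card_fin, nsmul_eq_mul] at h4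
       rw [Finset.sum_const, Finset.card_univ, Fintype.card_prod, Fintype.card_fin,
         nsmul_eq_mul] at h5
       push_cast at h4 h5
       nlinarith only [h4, h5]
     exact by
      have hGdq : Pb q (fun w => ¬ Gd w) ≤ 1 / (8 * CL) / 4 := by
        have h0 : Pb q (fun w => ¬ Gd w) ≤ Pb q (fun w => EE w ∧ ¬ Gd w) := by
          refine Pb_mono_ae hqlaw.nonneg fun w hw h => ⟨?_, h⟩
          rw [hq] at hw
          exact (ev_pos hPlaw.nonneg EE hw).2
        refine h0.trans ?_
        rw [hq]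
        refine (Pb_cond_le hPlaw.nonneg EE _ hEE0).trans ?_
        rw [div_le_iff₀ hEE0]
        refine hGdP.trans ?_
        have h1 : (N + 1 : ℝ) * (N + 2) * c₁ = 1 / (8 * CL) / 4 * ϖ ^ (N + 1) := by
          rw [hc₁]
          have h2 : (0 : ℝ) < (N + 1) * (N + 2) := by positivity
          field_simp
        rw [h1]
        exact mul_le_mul_of_nonneg_left hall (by positivity)
      -- the data of the linear form of lemma B
      obtain ⟨tt, htt⟩ : ∃ tt : ℕ → (Fin (N + 1) → Ω) → ℝ, tt = fun r w =>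
        (th (w (ix N r)) : ℝ) / 2 ^ J := ⟨_, rfl⟩
      obtain ⟨c, hc⟩ : ∃ c : (Fin (N + 1) → Ω) → Γ × (Fin (N + 1) → ℕ × ((Fin k →₀ ℕ) → ℤ)),
        c = fun w => (b (w 0), fun j => (th (w j), rk s (kap (w j)))) := ⟨_, rfl⟩
      obtain ⟨t, ht'⟩ : ∃ t : ℕ → Γ × (Fin (N + 1) → ℕ × ((Fin k →₀ ℕ) → ℤ)) → ℝ,
        t = fun r x => ((x.2 (ix N r)).1 : ℝ) / 2 ^ J := ⟨_, rfl⟩
      obtain ⟨v, hv⟩ : ∃ v : Γ × (Fin (N + 1) → ℕ × ((Fin k →₀ ℕ) → ℤ)) → Fin n → ℝ,
        v = fun x j => ((x.2 (ix N (R + j))).1 : ℝ) / 2 ^ J := ⟨_, rfl⟩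
      obtain ⟨S, hSS⟩ : ∃ S : ℕ → Γ × (Fin (N + 1) → ℕ × ((Fin k →₀ ℕ) → ℤ)) → Pl k,
        S = fun r x => Sp D s (zr (x.2 (ix N r)).2) := ⟨_, rfl⟩
      obtain ⟨S', hS'⟩ : ∃ S' : Γ × (Fin (N + 1) → ℕ × ((Fin k →₀ ℕ) → ℤ)) → Fin n → Pl k,
        S' = fun x j => Sp D s (zr (x.2 (ix N (R + j))).2) := ⟨_, rfl⟩
      have h2s : (0 : ℝ) < 2 ^ s := by positivity
      exact by
       have hy1 : 1 ≤ y := by exact_mod_cast k4
       -- the value at a sample
       have hgrad : ∀ (w : Fin (N + 1) → Ω) (i : Fin (N + 1)), Gd w →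
           |MvPolynomial.eval (pos (β (L (w 0))) ((th (w i) : ℝ) / 2 ^ J))
             (Sp D s (zr (rk s (kap (w i))))) -
             MvPolynomial.eval b₀ (Sp D s (zr (rk s (kap (w i))))) -
             (g (L (w 0))).eval ((th (w i) : ℝ) / 2 ^ J)| ≤ (Cτ + 1) / 2 ^ s := by
         intro w i hw
         rw [hGd] at hw
         obtain ⟨e1, e2, e3⟩ := hw
         obtain ⟨f1, f2, f3, f4⟩ := e2 i
         rw [e1 i] at f1 f2 f3 f4
         rw [zr_rk]
         have h1 := hvl (kap (w i)) s (hM.deg _)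
           (pos (β (L (w 0))) ((th (w i) : ℝ) / 2 ^ J))
           (fun j => by
             have h2 := f3 j
             have h3 : (Y (w i) j : ℝ) / 2 ^ X ≤ 1 := by
               rw [div_le_one (by positivity)]
               exact_mod_cast (hM.Y_lt (w i) j).le
             have h4 : 0 ≤ (Y (w i) j : ℝ) / 2 ^ X := by positivity
             have h5 : C₀ / 2 ^ X ≤ C₀ := div_le_self (by linarith only [hC₀]) (one_le_pow₀ (by norm_num))
             rw [abs_le] at h2 ⊢
             constructor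
             · linarith only [hC₀, h2, h4, h5, h2.1]
             · linarith only [hC₀, h2, h3, h5, h2.2])
         have h2 := f4
         have h3 : (Cτ + 1) / 2 ^ s = Cτ / 2 ^ s + 1 / 2 ^ s := by ring
         rw [h3]
         rw [abs_le] at h1 h2 ⊢
         constructor <;> linarith only [h1, h2, h1.1, h1.2, h2.1, h2.2]
       exact by
        have hcf : ∀ (w : Fin (N + 1) → Ω) (i : Fin (N + 1)) (α : Fin k →₀ ℕ), |MvPolynomial.coeff α (Sp D s (zr (rk s (kap (w i)))) : Pl k)| ≤
            (2 : ℝ) ^ y := by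
          intro w i α
          rw [zr_rk]
          by_cases hα : α = 0
          · subst hα
            rw [coeff_Sp']
            have h1 : rk s (kap (w i)) 0 = 0 := by
              unfold Pool.MIC.rk
              rw [if_pos rfl]
            rw [h1]
            simp
          · have h1 := coeff_sub_Sp (s := s) (hM.deg (w i)) α hα
            have h2 := hM.cf (w i) α hα
            have h3 : (1 : ℝ) / 2 ^ s ≤ 1 := by
              rw [div_le_one (by positivity)]
              exact one_le_pow₀ (by norm_num)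
            have h4 : (2 : ℝ) ^ bb + 1 ≤ 2 ^ y := by
              have h5 : (1 : ℝ) ≤ 2 ^ bb := one_le_pow₀ (by norm_num)
              have h6 : (2 : ℝ) ^ (bb + 1) ≤ 2 ^ y := pow_le_pow_right₀ (by norm_num) (by omega)
              rw [pow_succ] at h6
              linarith only [h5, h6]
            have h5 := abs_sub_abs_le_abs_sub (MvPolynomial.coeff α (Sp D s (rk s (kap (w i)))))
              (MvPolynomial.coeff α (kap (w i)))
            rw [abs_sub_comm] at h5
            linarith only [h1, h2, h3, h4, h5]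
        have hLB := hL R (Fin (N + 1) → Ω) (Γ × (Fin (N + 1) → ℕ × ((Fin k →₀ ℕ) → ℤ))) q X
          (fun r w => Y (w (ix N r))) c (fun w => β (L (w 0))) t v S S' (fun w => g (L (w 0))) Gd
          (2 ^ y) ((Cτ + 1) / 2 ^ s) θ' (1 / (8 * CL)) hR0 hqlaw
          (fun r _ w i => hM.Y_lt _ i)
          (fun r x => by rw [hSS]; exact Sp_deg D s _)
          (fun x j => by rw [hS']; exact Sp_deg D s _)
          hθ'0 (by positivity) (by rw [div_le_one (by positivity)]; linarith only [hCL]) (by positivity)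
          (fun r _ => by
            have h1 := hsm (ix N r)
            rw [hc]
            exact h1) hGdq k6
          (by
            rw [← Real.rpow_natCast, ← Real.exp_log (show (0 : ℝ) < 2 ^ ((y : ℕ) : ℝ) by positivity),
              Real.exp_le_exp, Real.log_rpow (by norm_num)]
            exact k1)
          (k2.trans (by
            have := Nat.lt_two_pow_self (n := y)
            exact_mod_cast this.le))
          (by
            rw [div_mul_eq_mul_div, div_le_one h2s, ← pow_mul]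
            have h1 : (Cτ + 1) * 2 ^ (y * AL) ≤ (2 : ℝ) ^ cτ * 2 ^ (y * AL) :=
              mul_le_mul_of_nonneg_right hcτ.le (by positivity)
            refine h1.trans ?_
            rw [← pow_add]
            refine pow_le_pow_right₀ (by norm_num) ?_
            refine le_trans ?_ hAs'
            nlinarith only [ha, hbb])
          (by
            intro w hw
            have hw' := hw
            rw [hGd] at hw'
            obtain ⟨e1, e2, e3⟩ := hw'
            refine ⟨fun i j => ((e2 0).1 i j).trans (by linarith only [hC₀]), ?_, ?_, ?_, (e2 0).2.1, ?_, ?_,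
              ?_, ?_, ?_⟩
            · intro r _
              rw [ht', hc]
              simp only
              rw [abs_of_nonneg (by positivity), div_le_one (by positivity)]
              exact_mod_cast hM.th_le _
            · intro j
              rw [hv, hc]
              simp only
              rw [abs_of_nonneg (by positivity), div_le_one (by positivity)]
              exact_mod_cast hM.th_le _
            · intro i j hij
              rw [hv, hc]
              simp only
              have h1 := e3 (ix N (R + i)) (ix N (R + j)) (by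
                intro h
                apply hij
                have h2 := congrArg Fin.val h
                rw [ix_val (by omega), ix_val (by omega)] at h2
                exact Fin.ext (by omega))
              rw [mul_comm]
              exact not_lt.1 h1
            · intro r hr i
              rw [ht', hc]
              simp only
              have h1 := (e2 (ix N r)).2.2.1 i
              rw [e1] at h1
              refine h1.trans (div_le_div_of_nonneg_right (by linarith only [hC₀]) (by positivity))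
            · intro r _ α
              rw [hSS, hc]
              exact hcf w _ α
            · intro j α
              rw [hS', hc]
              exact hcf w _ α
            · intro r _
              rw [ht', hSS, hc]
              exact hgrad w _ hw
            · intro j
              rw [hv, hS', hc]
              exact hgrad w _ hw)
        exact by
         obtain ⟨r, hr, F, hFd, hF⟩ := hLB
         obtain ⟨HH, hHH⟩ : ∃ HH : (Fin (N + 1) → Ω) → ℤ → Pl (k + 1), HH = fun w z =>
           F (v (c w)) (S' (c w)) (fun i : Fin r => (t i (c w), S i (c w))) z := ⟨_, rfl⟩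
         have hHHw : ∀ w w' : Fin (N + 1) → Ω, (∀ i, i ≠ ix N r → w i = w' i) → HH w = HH w' := by
           intro w w' h
           have hi1 : ∀ j : Fin n, w (ix N (R + j)) = w' (ix N (R + j)) := fun j => h _ (by
             intro h1
             have h2 := congrArg Fin.val h1
             have h3 := j.2
             rw [ix_val (by omega), ix_val (by omega)] at h2
             omega)
           have hi2 : ∀ i : Fin r, w (ix N i) = w' (ix N i) := fun i => h _ (by
             intro h1
             have h2 := congrArg Fin.val h1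
             have h3 := i.2
             rw [ix_val (by omega), ix_val (by omega)] at h2
             omega)
           have e1 : v (c w) = v (c w') := by
             rw [hv, hc]
             funext j
             simp only
             rw [hi1 j]
           have e2 : S' (c w) = S' (c w') := by
             rw [hS', hc]
             funext j
             simp only
             rw [hi1 j]
           have e3 : (fun i : Fin r => (t i (c w), S i (c w))) =
               fun i : Fin r => (t i (c w'), S i (c w')) := by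
             rw [ht', hSS, hc]
             funext i
             simp only
             rw [hi2 i]
           rw [hHH]
           simp only
           rw [e1, e2, e3]
         exact by
          obtain ⟨Good, hGood⟩ : ∃ Good : (Fin (N + 1) → Ω) → Ω → Prop, Good = fun w ω =>
            ∀ z : Fin k → ℝ, (∀ i, |z i| ≤ C₀) → ∀ l,
              |MvPolynomial.eval z (MvPolynomial.pderiv l (kap ω)) -
                MvPolynomial.eval (Fin.cons ((th ω : ℝ) / 2 ^ J) z : Fin (k + 1) → ℝ)
                  (MvPolynomial.pderiv l.succ (HH w ⌊(th ω : ℝ) / 2 ^ J * 2 ^ (A₂ * y)⌋))| *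
                2 ^ (a * y) ≤ 2 := ⟨_, rfl⟩
          obtain ⟨x, hx⟩ := bst_thm Ω Λ p L N (ix N r) G Good hp (fun w w' h ω => by
            rw [hGood]
            simp only
            rw [hHHw w w' h])
          obtain ⟨Near, hNear⟩ : ∃ Near : (Fin (N + 1) → Ω) → Prop, Near = fun w =>
            ∀ z : Fin k → ℝ, (∀ i, |z i| ≤ 2 * C₀ + 1) → ∀ l,
              |MvPolynomial.eval z (MvPolynomial.pderiv l (S r (c w))) -
                MvPolynomial.eval (Fin.cons (t r (c w)) z : Fin (k + 1) → ℝ)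
                  (MvPolynomial.pderiv l.succ (F (v (c w)) (S' (c w))
                    (fun i : Fin r => (t i (c w), S i (c w))) ⌊t r (c w) * (2 ^ y) ^ A₂⌋))| *
                (2 ^ y) ^ a ≤ 1 := ⟨_, rfl⟩
          have hF' : Pb q (fun w => Gd w ∧ ¬ Near w) ≤ (Nn : ℝ) / R + CL * (1 / (8 * CL)) := by
            rw [hNear]
            exact hF
          have hF2 : (Nn : ℝ) / R + CL * (1 / (8 * CL)) ≤ 1 / 4 := by
            have h1 : CL * (1 / (8 * CL)) = 1 / 8 := by
              field_simp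
            have h2 : (Nn : ℝ) / R ≤ 1 / 8 := by
              rw [hR]
              push_cast
              rw [div_le_iff₀ (by positivity)]
              linarith only
            linarith only [h1, h2]
          have hhalf : 1 / 2 ≤ Pb q (fun w => Gd w ∧ Near w) := by
            have h1 := Pb_three hqlaw Gd Near
            have h2 : 1 / (8 * CL) / 4 ≤ 1 / 32 := by
              rw [div_div, div_le_div_iff_of_pos_left one_pos (by positivity) (by norm_num)]
              linarith only [hCL]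
            linarith only [hGdq, hF', hF2, h1, h2]
          exact by
           have hPP : ϖ ^ (N + 1) / 2 ≤ Pb P (fun w => EE w ∧ (Gd w ∧ Near w)) := by
             rw [← Pb_cond_ge EE (fun w => Gd w ∧ Near w) hEE0, ← hq]
             have h1 := mul_le_mul hhalf hall hπ.le (by linarith only [hhalf])
             linarith only [h1]
           have hstep : Pb P (fun w => EE w ∧ (Gd w ∧ Near w)) ≤
               Pb P (fun w => (∀ i, G (w i)) ∧ Good w (w (ix N r))) := by
             refine Pb_mono_ae hPlaw.nonneg fun w _ h => ?_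
             obtain ⟨h1, h2, h3⟩ := h
             rw [hEE] at h1
             refine ⟨h1, ?_⟩
             rw [hGood]
             intro z hz l
             rw [hNear] at h3
             have h4 := h3 z (fun i => (hz i).trans (by linarith only [hC₀])) l
             have h5 := hgr (kap (w (ix N r))) s (hM.deg _) z (fun i => (hz i).trans (by linarith only [hC₀])) l
             have h6 : t r (c w) = (th (w (ix N r)) : ℝ) / 2 ^ J := by rw [ht', hc]
             have h7 : S r (c w) = Sp D s (rk s (kap (w (ix N r)))) := by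
               rw [hSS, hc]
               simp only
               rw [zr_rk]
             rw [h6, h7] at h4
             have h8 : ((2 : ℝ) ^ y) ^ A₂ = 2 ^ (A₂ * y) := by rw [← pow_mul, mul_comm]
             have h9 : ((2 : ℝ) ^ y) ^ a = 2 ^ (a * y) := by rw [← pow_mul, mul_comm]
             rw [h8, h9] at h4
             have h10 : HH w ⌊(th (w (ix N r)) : ℝ) / 2 ^ J * 2 ^ (A₂ * y)⌋ = F (v (c w)) (S' (c w))
                 (fun i : Fin r => (t i (c w), S i (c w)))
                   ⌊(th (w (ix N r)) : ℝ) / 2 ^ J * 2 ^ (A₂ * y)⌋ := by rw [hHH]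
             rw [← h10] at h4
             have h11 : Cτ / 2 ^ s * 2 ^ (a * y) ≤ 1 := by
               rw [div_mul_eq_mul_div, div_le_one h2s]
               have h12 : Cτ * 2 ^ (a * y) ≤ (2 : ℝ) ^ cτ * 2 ^ (a * y) :=
                 mul_le_mul_of_nonneg_right (by linarith only [hcτ]) (by positivity)
               refine h12.trans ?_
               rw [← pow_add]
               refine pow_le_pow_right₀ (by norm_num) ?_
               refine le_trans ?_ hAs'
               nlinarith only [hbb]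
             have h13 := mul_le_mul_of_nonneg_right h5 (by positivity : (0 : ℝ) ≤ 2 ^ (a * y))
             have h14 : ∀ u₁ u₂ u₃ : ℝ, |u₁ - u₂| * 2 ^ (a * y) ≤ 1 → |u₂ - u₃| * 2 ^ (a * y) ≤ 1 →
                 |u₁ - u₃| * 2 ^ (a * y) ≤ 2 := by
               intro u₁ u₂ u₃ g1 g2
               have g3 := mul_le_mul_of_nonneg_right (abs_sub_le u₁ u₂ u₃)
                 (by positivity : (0 : ℝ) ≤ 2 ^ (a * y))
               linarith only [g1, g2, g3]
             exact h14 _ _ _ (h13.trans h11) h4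
           exact by
            refine ⟨fun l z => HH (x l) z, fun l z => by rw [hHH]; exact hFd _ _ _ _, ?_⟩
            have hfin : c₁ ≤ ϖ ^ (N + 1) / 2 := by
              rw [hc₁]
              have h1 : (1 : ℝ) / (8 * CL) ≤ 1 := by
                rw [div_le_one (by positivity)]
                linarith only [hCL]
              have h2 : (1 : ℝ) ≤ (N + 1) * (N + 2) := by
                have : (0 : ℝ) ≤ N := Nat.cast_nonneg _
                nlinarith only
              rw [div_le_iff₀ (by positivity)]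
              have h3 : ϖ ^ (N + 1) * (1 / (8 * CL)) ≤ ϖ ^ (N + 1) :=
                mul_le_of_le_one_right hπ.le h1
              have h4 : ϖ ^ (N + 1) / 2 * 1 ≤ ϖ ^ (N + 1) / 2 * ((N + 1) * (N + 2)) :=
                mul_le_mul_of_nonneg_left h2 (by positivity)
              linarith only [hπ, h3, h4]
            rw [hP] at hPP hstep
            refine hfin.trans (hPP.trans (hstep.trans (hx.trans ?_)))
            refine Pb_mono_ae hp.nonneg fun ω _ h => ?_
            have h1 := h.2
            rw [hGood] at h1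
            exact ⟨h.1, h1⟩

end Pool.LSH
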